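import Mathlib

/-! Polynomial inequalities for the `T`-curve of the graph `G_6`. `z = |Y| + |R|`, `r = |R|`. -/

set_option autoImplicit false

namespace Pool.Agent.R85.G6

/-- edge density of the `T`-weights -/
def be (z r : ℝ) : ℝ := z ^ 2 + 2 * r * (1 - z)

/-- density of the vertices joined to `R`, `Y` and so on: the number of pairs (vertex, triangle) -/
def PP (z r : ℝ) : ℝ := (z - r) * z ^ 2 + (1 - z) * r ^ 2

/-- homomorphism density of `G_6` -/
def F6 (z r : ℝ) : ℝ := r ^ 2 * be z r + r * PP z r * (1 + be z r) + ((z - r) * z ^ 2) ^ 2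

def On (β z r : ℝ) : Prop := 0 ≤ r ∧ r ≤ z ∧ z ≤ 1 ∧ be z r = β

/-- the cofactor -/
def KK6 (y r : ℝ) : ℝ := 5 * r ^ 2 - 7 * r ^ 3 + 2 * r ^ 4 + y * (5 * r ^ 2 - 2 * r ^ 3) +
  y ^ 2 * (9 * r - 3 * r ^ 2) + y ^ 3 * (6 * r - 1) + 5 * y ^ 4

theorem F6_zero (z : ℝ) : F6 z 0 = be z 0 ^ 3 := by
  unfold F6 PP be; ring

theorem cube_sub (z r : ℝ) : be z r ^ 3 - F6 z r = r * (1 - z) * KK6 (z - r) r := by
  unfold F6 PP be KK6; ring

theorem be_nonneg {z r : ℝ} (h0 : 0 ≤ r) (h1 : r ≤ z) (h2 : z ≤ 1) : 0 ≤ be z r := by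
  unfold be
  have : 0 ≤ 2 * r * (1 - z) := mul_nonneg (by linarith) (by linarith)
  positivity

theorem PP_nonneg {z r : ℝ} (h1 : r ≤ z) (h2 : z ≤ 1) : 0 ≤ PP z r := by
  unfold PP
  have a : 0 ≤ (z - r) * z ^ 2 := mul_nonneg (by linarith) (sq_nonneg _)
  have b : 0 ≤ (1 - z) * r ^ 2 := mul_nonneg (by linarith) (sq_nonneg _)
  linarith

theorem be_mono {z z' r : ℝ} (h1 : r ≤ z) (h2 : z ≤ z') : be z r ≤ be z' r := by
  have : be z' r - be z r = (z' - z) * ((z' - r) + (z - r)) := by unfold be; ring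
  have h : 0 ≤ (z' - z) * ((z' - r) + (z - r)) := mul_nonneg (by linarith) (by linarith)
  linarith

theorem PP_mono {z z' r : ℝ} (h0 : 0 ≤ r) (h1 : r ≤ z) (h2 : z ≤ z') : PP z r ≤ PP z' r := by
  have e : PP z' r - PP z r = (z' - z) * (z' ^ 2 + z' * z + z ^ 2 - r * z' - r * z - r ^ 2) := by
    unfold PP; ring
  have h : 0 ≤ (z' - z) * (z' ^ 2 + z' * z + z ^ 2 - r * z' - r * z - r ^ 2) := by
    apply mul_nonneg (by linarith)
    have h3 : 0 ≤ z' * (z' - r) := mul_nonneg (by linarith) (by linarith)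
    have h4 : 0 ≤ z * (z - r) := mul_nonneg (by linarith) (by linarith)
    have h5 : r * r ≤ z' * z := mul_le_mul (by linarith) h1 h0 (by linarith)
    nlinarith
  linarith

theorem F6_mono_z {z z' r : ℝ} (h0 : 0 ≤ r) (h1 : r ≤ z) (h2 : z ≤ z') (h3 : z' ≤ 1) :
    F6 z r ≤ F6 z' r := by
  have a := be_mono h1 h2
  have b := PP_mono h0 h1 h2
  have a0 := be_nonneg h0 h1 (h2.trans h3)
  have b0 := PP_nonneg h1 (h2.trans h3)
  have b1 := PP_nonneg (h1.trans h2) h3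
  have c : (z - r) * z ^ 2 ≤ (z' - r) * z' ^ 2 :=
    mul_le_mul (by linarith) (pow_le_pow_left₀ (h0.trans h1) h2 2) (sq_nonneg _) (by linarith)
  have c0 : 0 ≤ (z - r) * z ^ 2 := mul_nonneg (by linarith) (sq_nonneg _)
  have d := pow_le_pow_left₀ c0 c 2
  have e : r * PP z r * (1 + be z r) ≤ r * PP z' r * (1 + be z' r) :=
    mul_le_mul (mul_le_mul_of_nonneg_left b h0) (by linarith) (by linarith) (mul_nonneg h0 b1)
  have f : r ^ 2 * be z r ≤ r ^ 2 * be z' r := mul_le_mul_of_nonneg_left a (sq_nonneg _)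
  unfold F6
  linarith

theorem KK6_pos {z r : ℝ} (h0 : 0 < r) (h1 : r ≤ z) (h2 : z < 1) (hb : 1 / 25 ≤ be z r) :
    0 < KK6 (z - r) r := by
  set y := z - r with hy
  have hy0 : 0 ≤ y := by linarith
  have hr1 : r + y < 1 := by linarith
  have hb' : 1 / 25 ≤ y ^ 2 + 2 * r - r ^ 2 := by
    have : be z r = y ^ 2 + 2 * r - r ^ 2 := by unfold be; rw [hy]; ring
    linarith
  have key : y * (1 - 5 * y) ≤ 5 * r := by
    rcases le_total (1 / 5) y with h | h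
    · have : y * (1 - 5 * y) ≤ 0 := mul_nonpos_of_nonneg_of_nonpos hy0 (by linarith)
      linarith
    · nlinarith [mul_nonneg (by linarith : (0:ℝ) ≤ 1 / 5 - y) (by linarith : (0:ℝ) ≤ 1 / 5 - y),
        sq_nonneg r]
  have k1 : y ^ 2 * (y * (1 - 5 * y)) ≤ y ^ 2 * (5 * r) :=
    mul_le_mul_of_nonneg_left key (sq_nonneg _)
  have k2 : 0 < r ^ 2 * ((1 - r) * (5 - 2 * r)) :=
    mul_pos (by positivity) (mul_pos (by linarith) (by linarith))
  have k3 : 0 ≤ y * r ^ 2 * (5 - 2 * r) := mul_nonneg (by positivity) (by linarith)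
  have k4 : 0 ≤ y ^ 2 * r * (4 - 3 * r) := mul_nonneg (by positivity) (by linarith)
  have k5 : 0 ≤ 6 * y ^ 3 * r := by positivity
  have e : KK6 y r = r ^ 2 * ((1 - r) * (5 - 2 * r)) + y * r ^ 2 * (5 - 2 * r) +
      y ^ 2 * r * (4 - 3 * r) + 6 * y ^ 3 * r + (y ^ 2 * (5 * r) - y ^ 2 * (y * (1 - 5 * y))) := by
    unfold KK6; ring
  rw [e]
  linarith

/-- at density at least `1/25` the quasi-clique is best -/
theorem F6_le {z r : ℝ} (h0 : 0 ≤ r) (h1 : r ≤ z) (h2 : z ≤ 1) (hb : 1 / 25 ≤ be z r) :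
    F6 z r ≤ be z r ^ 3 := by
  have h := cube_sub z r
  rcases h0.eq_or_lt with h3 | h3
  · rw [← h3] at h ⊢
    simp only [zero_mul] at h
    linarith
  · rcases h2.eq_or_lt with h4 | h4
    · rw [h4] at h ⊢
      simp only [sub_self, mul_zero, zero_mul] at h
      linarith
    · have := mul_pos (mul_pos h3 (by linarith : 0 < 1 - z)) (KK6_pos h3 h1 h4 hb)
      linarith

theorem F6_lt {z r : ℝ} (h0 : 0 < r) (h1 : r ≤ z) (h2 : z < 1) (hb : 1 / 25 ≤ be z r) :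
    F6 z r < be z r ^ 3 := by
  have h := cube_sub z r
  have := mul_pos (mul_pos h0 (by linarith : 0 < 1 - z)) (KK6_pos h0 h1 h2 hb)
  linarith

/-- the quasi-star is worse than the quasi-clique -/
theorem F6_self {r : ℝ} (h0 : 0 ≤ r) (h1 : r ≤ 1) : F6 r r ≤ be r r ^ 3 := by
  have h := cube_sub r r
  have e : KK6 (r - r) r = r ^ 2 * ((1 - r) * (5 - 2 * r)) := by
    unfold KK6; ring
  rw [e] at h
  have : 0 ≤ r * (1 - r) * (r ^ 2 * ((1 - r) * (5 - 2 * r))) := by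
    refine mul_nonneg (mul_nonneg h0 (by linarith)) (mul_nonneg (sq_nonneg _) (mul_nonneg ?_ ?_)) <;>
    linarith
  linarith

/-- the parameters of the `T`-graphs -/
noncomputable def rq (β q : ℝ) : ℝ := 1 - √(1 - β * (1 - q ^ 2))

noncomputable def zq (β q : ℝ) : ℝ := √β * q + rq β q

theorem on_q {β q : ℝ} (hβ0 : 0 ≤ β) (hβ1 : β ≤ 1) (hq0 : 0 ≤ q) (hq1 : q ≤ 1) :
    On β (zq β q) (rq β q) := by
  have hq2 : q ^ 2 ≤ 1 := by nlinarith
  have a1 : 0 ≤ β * (1 - q ^ 2) := mul_nonneg hβ0 (by linarith)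
  have a2 : β * (1 - q ^ 2) ≤ 1 := by nlinarith [sq_nonneg q, mul_nonneg hβ0 (sq_nonneg q)]
  have hs := Real.sq_sqrt (by linarith : 0 ≤ 1 - β * (1 - q ^ 2))
  have hs0 := Real.sqrt_nonneg (1 - β * (1 - q ^ 2))
  have hs1 : √(1 - β * (1 - q ^ 2)) ≤ 1 := Real.sqrt_le_one.2 (by linarith)
  have hb := Real.sq_sqrt hβ0
  have hb0 := Real.sqrt_nonneg β
  have hle : √β * q ≤ √(1 - β * (1 - q ^ 2)) := by
    apply Real.le_sqrt_of_sq_le
    rw [mul_pow, hb]
    nlinarith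
  refine ⟨?_, ?_, ?_, ?_⟩
  · unfold rq; linarith
  · unfold zq; linarith [mul_nonneg hb0 hq0]
  · unfold zq rq; linarith
  · have e : be (zq β q) (rq β q) = (√β * q) ^ 2 + 1 - (√(1 - β * (1 - q ^ 2))) ^ 2 := by
      unfold zq rq be; ring
    rw [e, hs, mul_pow, hb]; ring

theorem rq_pos {β q : ℝ} (hβ0 : 0 < β) (hq0 : 0 ≤ q) (hq1 : q < 1) : 0 < rq β q := by
  have hq2 : q ^ 2 < 1 := by nlinarith
  have a1 : 0 < β * (1 - q ^ 2) := mul_pos hβ0 (by linarith)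
  unfold rq
  have : √(1 - β * (1 - q ^ 2)) < 1 := by
    rw [Real.sqrt_lt' one_pos]; linarith
  linarith

theorem zq_lt {β q : ℝ} (hβ1 : β < 1) (hβ0 : 0 ≤ β) (hq0 : 0 ≤ q) (hq1 : q ≤ 1) : zq β q < 1 := by
  have hb := Real.sq_sqrt hβ0
  have hq2 : q ^ 2 ≤ 1 := by nlinarith
  have : √β * q < √(1 - β * (1 - q ^ 2)) := by
    apply Real.lt_sqrt_of_sq_lt
    rw [mul_pow, hb]
    nlinarith
  unfold zq rq; linarith

/-- below density `1/25` some `T`-weights beat the quasi-clique -/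
theorem exists_better {β : ℝ} (h0 : 0 < β) (h1 : β < 1 / 25) :
    ∃ z r, On β z r ∧ β ^ 3 < F6 z r := by
  have hc : Continuous (fun q : ℝ => KK6 (√β * q) (rq β q)) := by
    unfold KK6 rq; fun_prop
  have hs0 : 0 < √β := Real.sqrt_pos.2 h0
  have hs1 : √β < 1 / 5 := by
    rw [Real.sqrt_lt' (by norm_num)]; linarith
  have hr1 : rq β 1 = 0 := by unfold rq; simp
  have hv : KK6 (√β * 1) (rq β 1) < 0 := by
    rw [hr1]
    have : KK6 (√β * 1) 0 = -(√β ^ 3 * (1 - 5 * √β)) := by unfold KK6; ring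
    rw [this]
    have : 0 < √β ^ 3 * (1 - 5 * √β) := mul_pos (by positivity) (by linarith)
    linarith
  have e1 : ∀ᶠ q in nhdsWithin (1:ℝ) (Set.Iio 1), KK6 (√β * q) (rq β q) < 0 :=
    ((hc.tendsto 1).mono_left nhdsWithin_le_nhds).eventually_lt_const hv
  have e2 : ∀ᶠ q in nhdsWithin (1:ℝ) (Set.Iio 1), q ∈ Set.Ioo (0:ℝ) 1 := Ioo_mem_nhdsLT one_pos
  obtain ⟨q, hq, hq0, hq1⟩ := (e1.and e2).exists
  have hon := on_q h0.le (by linarith) hq0.le hq1.le
  refine ⟨_, _, hon, ?_⟩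
  have hr := rq_pos h0 hq0.le hq1
  have hz := zq_lt (by linarith : β < 1) h0.le hq0.le hq1.le
  have h := cube_sub (zq β q) (rq β q)
  have hyy : zq β q - rq β q = √β * q := by unfold zq; ring
  rw [hyy, hon.2.2.2] at h
  have := mul_neg_of_pos_of_neg (mul_pos hr (by linarith : 0 < 1 - zq β q)) hq
  linarith

/-- the maximum over the curve is attained -/
theorem exists_max {β : ℝ} (h0 : 0 ≤ β) (h1 : β ≤ 1) :
    ∃ z r, On β z r ∧ ∀ z' r', On β z' r' → F6 z' r' ≤ F6 z r := by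
  set S : Set (ℝ × ℝ) := {p | On β p.1 p.2} with hS
  have hcl : IsClosed S := by
    have : S = {p : ℝ × ℝ | 0 ≤ p.2} ∩ {p | p.2 ≤ p.1} ∩ {p | p.1 ≤ 1} ∩ {p | be p.1 p.2 = β} := by
      ext p
      simp only [hS, On, Set.mem_inter_iff, Set.mem_ofPred_eq]
      tauto
    rw [this]
    refine ((((isClosed_le ?_ ?_).inter (isClosed_le ?_ ?_)).inter (isClosed_le ?_ ?_)).inter
      (isClosed_eq ?_ ?_)) <;> (try unfold be) <;> fun_prop
  have hco : IsCompact S := by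
    refine (isCompact_Icc (a := ((0:ℝ), (0:ℝ))) (b := (1, 1))).of_isClosed_subset hcl ?_
    rintro ⟨z, r⟩ ⟨a, b, c, -⟩
    simp only at a b c
    exact ⟨⟨by simp only; linarith, by simp only; linarith⟩, ⟨by simp only; linarith, by simp only; linarith⟩⟩
  have hne : S.Nonempty := ⟨(zq β 0, rq β 0), on_q h0 h1 le_rfl zero_le_one⟩
  have hcont : ContinuousOn (fun p : ℝ × ℝ => F6 p.1 p.2) S := by
    unfold F6 PP be; fun_prop
  obtain ⟨p, hp, hmax⟩ := hco.exists_isMaxOn hne hcont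
  exact ⟨p.1, p.2, hp, fun z' r' h => hmax (show (z', r') ∈ S from h)⟩

/-- below density `1/25` the maximum is attained for `0 < r < z` and is larger than `β³` -/
theorem max_inner {β z r : ℝ} (h0 : 0 < β) (h1 : β < 1 / 25) (hon : On β z r)
    (hmax : ∀ z' r', On β z' r' → F6 z' r' ≤ F6 z r) : 0 < r ∧ r < z ∧ β ^ 3 < F6 z r := by
  obtain ⟨z', r', h2, h3⟩ := exists_better h0 h1
  have h4 := h3.trans_le (hmax z' r' h2)
  obtain ⟨a0, a1, a2, a3⟩ := hon
  refine ⟨?_, ?_, h4⟩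
  · rcases a0.eq_or_lt with h | h
    · exfalso
      rw [← h] at h4 a3
      rw [F6_zero, a3] at h4
      exact lt_irrefl _ h4
    · exact h
  · rcases a1.eq_or_lt with h | h
    · exfalso
      rw [← h] at h4 a3 a2
      have := F6_self a0 a2
      rw [a3] at this
      linarith
    · exact h

end Pool.Agent.R85.G6
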