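import Pool.Agent.R85.G6.Alg
import Pool.Agent.W154.STK.QC

/-! The `T`-value of `G_6`, limits of the three families and of the extremal number. -/

set_option autoImplicit false

namespace Pool.Agent.R85.G6

open Finset Filter Topology Asymptotics
open scoped Classical
open Pool.Agent.H488R3 Pool.Agent.W154.STK

/-- The graph `G_6`: the triangle `0 1 2`, the vertex `3` adjacent to `0`, and `4`, `5` adjacent
to `3`. -/
def G6 : SimpleGraph (Fin 6) :=
  SimpleGraph.fromEdgeSet {s(0, 1), s(0, 2), s(1, 2), s(0, 3), s(3, 4), s(3, 5)}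

lemma G6_ok (c : Fin 6 → Cls) : (∀ a b, G6.Adj a b → Cls.ok (c a) (c b)) ↔
    (Cls.ok (c 0) (c 1) ∧ Cls.ok (c 0) (c 2) ∧ Cls.ok (c 1) (c 2)) ∧ Cls.ok (c 0) (c 3) ∧
      Cls.ok (c 3) (c 4) ∧ Cls.ok (c 3) (c 5) := by
  unfold G6
  constructor
  · intro h
    refine ⟨⟨h 0 1 ?_, h 0 2 ?_, h 1 2 ?_⟩, h 0 3 ?_, h 3 4 ?_, h 3 5 ?_⟩ <;>
    · rw [SimpleGraph.fromEdgeSet_adj]
      exact ⟨by simp, by decide⟩
  · rintro ⟨⟨h1, h2, h3⟩, h4, h5, h6⟩ a b hab
    rw [SimpleGraph.fromEdgeSet_adj] at hab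
    obtain ⟨hab, -⟩ := hab
    simp only [Set.mem_insert_iff, Set.mem_singleton_iff, Sym2.eq_iff] at hab
    rcases hab with (⟨rfl, rfl⟩ | ⟨rfl, rfl⟩) | (⟨rfl, rfl⟩ | ⟨rfl, rfl⟩) | (⟨rfl, rfl⟩ | ⟨rfl, rfl⟩) |
      (⟨rfl, rfl⟩ | ⟨rfl, rfl⟩) | (⟨rfl, rfl⟩ | ⟨rfl, rfl⟩) | (⟨rfl, rfl⟩ | ⟨rfl, rfl⟩) <;>
    first | assumption | (apply Cls.ok_symm; assumption)

lemma sum_cons {n : ℕ} (F : (Fin (n + 1) → Cls) → ℝ) :
    ∑ c : Fin (n + 1) → Cls, F c = ∑ x : Cls, ∑ c : Fin n → Cls, F (Fin.cons x c) := by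
  rw [← Fintype.sum_prod_type (fun p : Cls × (Fin n → Cls) => F (Fin.cons p.1 p.2))]
  refine (Fintype.sum_equiv (Fin.consEquiv (fun _ => Cls)) _ _ ?_).symm
  intro p; rfl

/-- adjacency of classes as a number -/
noncomputable def e (x y : Cls) : ℝ := if Cls.ok x y then 1 else 0

lemma sum3 (f : Cls → ℝ) : ∑ c : Cls, f c = f .Y + f .R + f .B := by
  rw [cls_univ]
  simp
  ring

lemma tval_six (w : Cls → ℝ) : tval G6 w = ∑ a : Cls, ∑ b : Cls, ∑ c : Cls, ∑ u : Cls,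
    (e a b * e a c * e b c * e a u * (w a * w b * w c * w u)) *
      (∑ x : Cls, e u x * w x) * (∑ y : Cls, e u y * w y) := by
  unfold tval
  have h0 : ∀ c : Fin 6 → Cls, (if (∀ a b, G6.Adj a b → Cls.ok (c a) (c b)) then ∏ v, w (c v) else 0) =
      e (c 0) (c 1) * e (c 0) (c 2) * e (c 1) (c 2) * e (c 0) (c 3) *
        (w (c 0) * w (c 1) * w (c 2) * w (c 3)) * (e (c 3) (c 4) * w (c 4)) *
        (e (c 3) (c 5) * w (c 5)) := by
    intro c
    rw [Fin.prod_univ_six]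
    unfold e
    by_cases h : ∀ a b, G6.Adj a b → Cls.ok (c a) (c b)
    · rw [if_pos h]
      obtain ⟨⟨h1, h2, h3⟩, h4, h5, h6⟩ := (G6_ok c).1 h
      rw [if_pos h1, if_pos h2, if_pos h3, if_pos h4, if_pos h5, if_pos h6]
      ring
    · rw [if_neg h]
      rw [G6_ok] at h
      by_cases h1 : Cls.ok (c 0) (c 1)
      · by_cases h2 : Cls.ok (c 0) (c 2)
        · by_cases h3 : Cls.ok (c 1) (c 2)
          · by_cases h4 : Cls.ok (c 0) (c 3)
            · by_cases h5 : Cls.ok (c 3) (c 4)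
              · have h6 : ¬ Cls.ok (c 3) (c 5) := fun h6 => h ⟨⟨h1, h2, h3⟩, h4, h5, h6⟩
                rw [if_neg h6]; ring
              · rw [if_neg h5]; ring
            · rw [if_neg h4]; ring
          · rw [if_neg h3]; ring
        · rw [if_neg h2]; ring
      · rw [if_neg h1]; ring
  have h1 : (∑ c : Fin 6 → Cls, if (∀ a b, G6.Adj a b → Cls.ok (c a) (c b)) then ∏ v, w (c v) else 0) =
      ∑ c : Fin 6 → Cls, e (c 0) (c 1) * e (c 0) (c 2) * e (c 1) (c 2) * e (c 0) (c 3) *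
        (w (c 0) * w (c 1) * w (c 2) * w (c 3)) * (e (c 3) (c 4) * w (c 4)) *
        (e (c 3) (c 5) * w (c 5)) := Finset.sum_congr rfl fun c _ => h0 c
  refine Eq.trans ?_ (h1.trans ?_)
  · exact Finset.sum_congr (by ext; simp) fun c _ => by congr
  rw [sum_cons]
  refine Finset.sum_congr rfl fun a _ => ?_
  rw [sum_cons]
  refine Finset.sum_congr rfl fun b _ => ?_
  rw [sum_cons]
  refine Finset.sum_congr rfl fun c _ => ?_
  rw [sum_cons]
  refine Finset.sum_congr rfl fun u _ => ?_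
  rw [sum_cons]
  rw [mul_assoc, Finset.sum_mul_sum, Finset.mul_sum]
  refine Finset.sum_congr rfl fun x _ => ?_
  rw [sum_cons, Finset.mul_sum]
  refine Finset.sum_congr rfl fun y _ => ?_
  rw [Fintype.sum_unique]
  exact mul_assoc (e a b * e a c * e b c * e a u * (w a * w b * w c * w u)) (e u x * w x)
    (e u y * w y)

lemma e_sum (w : Cls → ℝ) (u : Cls) : (∑ x : Cls, e u x * w x) =
    match u with
    | .Y => w .Y + w .R
    | .R => w .Y + w .R + w .B
    | .B => w .R := by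
  rw [sum3]
  cases u <;> simp [e, Cls.ok]

theorem tval_G6 (w : Cls → ℝ) (hw : w .Y + w .R + w .B = 1) :
    tval G6 w = F6 (w .Y + w .R) (w .R) := by
  rw [tval_six]
  simp only [e_sum]
  simp only [sum3]
  simp only [e, Cls.ok, if_true, if_false]
  have hB : w .B = 1 - w .Y - w .R := by linarith
  rw [hB]
  unfold F6 PP be
  ring

theorem egy_eq6 (w : Cls → ℝ) (hw : w .Y + w .R + w .B = 1) :
    egy w = be (w .Y + w .R) (w .R) := by
  unfold egy be
  have : w .B = 1 - w .Y - w .R := by linarith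
  rw [this]; ring

/-- weights from `(z, r)` -/
def wzr (z r : ℝ) : Cls → ℝ
  | .Y => z - r
  | .R => r
  | .B => 1 - z

theorem wzr_mem {β z r : ℝ} (h : On β z r) : wzr z r ∈ KK ∧ egy (wzr z r) = β ∧
    tval G6 (wzr z r) = F6 z r := by
  obtain ⟨h0, h1, h2, h3⟩ := h
  have hs : wzr z r .Y + wzr z r .R + wzr z r .B = 1 := by simp only [wzr]; ring
  refine ⟨⟨?_, by simp only [wzr]; ring⟩, ?_, ?_⟩
  · intro c
    cases c <;> simp only [wzr] <;> linarith
  · rw [egy_eq6 _ hs, ← h3]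
    simp only [wzr]
    congr 1; ring
  · rw [tval_G6 _ hs]
    simp only [wzr]
    congr 1; ring

theorem on_of_mem {w : Cls → ℝ} (hw : w ∈ KK) : On (egy w) (w .Y + w .R) (w .R) ∧
    tval G6 w = F6 (w .Y + w .R) (w .R) := by
  obtain ⟨h0, h1⟩ := hw
  have hs : w .Y + w .R + w .B = 1 := by linarith
  refine ⟨⟨h0 _, by linarith [h0 .Y], by linarith [h0 .B], (egy_eq6 w hs).symm⟩, tval_G6 w hs⟩

lemma on_up {β β' z r : ℝ} (h : On β' z r) (h1 : β' ≤ β) (h2 : β ≤ 1) :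
    ∃ z', z ≤ z' ∧ On β z' r := by
  obtain ⟨a0, a1, a2, a3⟩ := h
  have hc : ContinuousOn (fun t => be t r) (Set.Icc z 1) := by
    unfold be; fun_prop
  have hiv := intermediate_value_Icc a2 hc
  have hb : β ∈ Set.Icc (be z r) (be 1 r) := by
    refine ⟨by rw [a3]; exact h1, ?_⟩
    have : be 1 r = 1 := by unfold be; ring
    rw [this]; exact h2
  obtain ⟨z', ⟨h3, h4⟩, h5⟩ := hiv hb
  exact ⟨z', h3, a0, a1.trans h3, h4, h5⟩

/-- every graph is below the `T`-curve -/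
theorem hd_le {β F : ℝ} (hβ : β ≤ 1) (hF : ∀ z r, On β z r → F6 z r ≤ F) {n : ℕ} (hn : 0 < n)
    (H : SimpleGraph (Fin n)) (he : ed n H ≤ β) : hd G6 n H ≤ F := by
  have : Nonempty (Fin n) := ⟨⟨0, hn⟩⟩
  obtain ⟨w, hw, h1, h2⟩ := mem_CC G6 H
  rw [Fintype.card_fin] at h1 h2
  obtain ⟨h3, h4⟩ := on_of_mem hw
  rw [h1] at h3
  obtain ⟨z', h5, h6⟩ := on_up (β := β) h3 he hβ
  obtain ⟨a0, a1, a2, a3⟩ := h3
  refine le_trans h2 ?_
  rw [h4]
  exact (F6_mono_z a0 a1 h5 h6.2.2.1).trans (hF _ _ h6)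

lemma be_scale {c z r : ℝ} (hc0 : 0 < c) (hc1 : c < 1) (h0 : 0 ≤ r) (h1 : r ≤ z) (h2 : z ≤ 1)
    (hb : 0 < be z r) : be (c * z) (c * r) < be z r := by
  have h3 : be z r - be (c * z) (c * r) =
      (1 - c) * ((1 + c) * (z - r) ^ 2 + (2 * r - (1 + c) * r ^ 2)) := by
    unfold be; ring
  have hr1 : r ≤ 1 := h1.trans h2
  have h4 : 0 ≤ 2 * r - (1 + c) * r ^ 2 := by
    have : r ^ 2 ≤ r := by nlinarith
    nlinarith
  have h5 : 0 < (1 + c) * (z - r) ^ 2 + (2 * r - (1 + c) * r ^ 2) := by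
    rcases h1.lt_or_eq with h | h
    · have : 0 < (1 + c) * (z - r) ^ 2 := by
        apply mul_pos (by linarith)
        have : 0 < z - r := by linarith
        positivity
      linarith
    · subst h
      have hr : 0 < r := by
        rcases h0.lt_or_eq with h | h
        · exact h
        · rw [← h] at hb
          unfold be at hb
          norm_num at hb
      have h6 : 0 < 2 * r - (1 + c) * r ^ 2 := by
        have : 2 * r - (1 + c) * r ^ 2 = r * (2 - (1 + c) * r) := by ring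
        rw [this]
        apply mul_pos hr
        nlinarith
      have : (1 + c) * (r - r) ^ 2 = 0 := by ring
      linarith
  have := mul_pos (by linarith : 0 < 1 - c) h5
  linarith

/-- the (normalised) extremal number converges to the maximum over `T`-weights -/
theorem ex_lim {β : ℝ} (hβ0 : 0 < β) (hβ : β ≤ 1) {z r : ℝ} (hon : On β z r)
    (hmax : ∀ z' r', On β z' r' → F6 z' r' ≤ F6 z r) {E : ℕ → ℕ}
    (hE1 : ∀ n, ∃ H : SimpleGraph (Fin n), H.edgeSet.ncard ≤ ⌊β * (n:ℝ) ^ 2 / 2⌋₊ ∧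
      E n = H.copyCount G6)
    (hE2 : ∀ n, ∀ H : SimpleGraph (Fin n), H.edgeSet.ncard ≤ ⌊β * (n:ℝ) ^ 2 / 2⌋₊ →
      H.copyCount G6 ≤ E n) :
    Tendsto (fun n : ℕ => (E n : ℝ) * (Nat.card (G6 ≃g G6) : ℝ) / (n : ℝ) ^ 6) atTop
      (𝓝 (F6 z r)) := by
  have hcard : Fintype.card (Fin 6) = 6 := by simp
  rw [tendsto_order]
  constructor
  · intro a ha
    obtain ⟨h0, h1, h2, h3⟩ := hon
    have hcont : Continuous (fun c : ℝ => F6 (c * z) (c * r)) := by
      unfold F6 PP be; fun_prop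
    have ht : Tendsto (fun c : ℝ => F6 (c * z) (c * r)) (𝓝[<] 1) (𝓝 (F6 z r)) := by
      have h9 := (hcont.tendsto 1).mono_left (nhdsWithin_le_nhds (s := Set.Iio (1:ℝ)))
      simp only [one_mul] at h9
      exact h9
    have e1 : ∀ᶠ c in 𝓝[<] (1:ℝ), a < F6 (c * z) (c * r) := ht.eventually_const_lt ha
    have e2 : ∀ᶠ c in 𝓝[<] (1:ℝ), c ∈ Set.Ioo (0:ℝ) 1 := Ioo_mem_nhdsLT one_pos
    obtain ⟨c, hc1, hc2, hc3⟩ := (e1.and e2).exists
    have hon' : On (be (c * z) (c * r)) (c * z) (c * r) := by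
      refine ⟨by positivity, mul_le_mul_of_nonneg_left h1 hc2.le, ?_, rfl⟩
      have : c * z ≤ 1 * 1 := mul_le_mul hc3.le h2 (h0.trans h1) (by norm_num)
      linarith
    obtain ⟨hw, he, htv⟩ := wzr_mem hon'
    set w := wzr (c * z) (c * r) with hwdef
    have hbe : be (c * z) (c * r) < β := by
      rw [← h3]
      exact be_scale hc2 hc3 h0 h1 h2 (by rw [h3]; exact hβ0)
    have l1 : ∀ᶠ n : ℕ in atTop, ed n (HG (clN w n)) < β := by
      have := egy_tendsto hw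
      rw [he] at this
      exact this.eventually_lt_const hbe
    have l2 : ∀ᶠ n : ℕ in atTop, a < cd G6 n (HG (clN w n)) := by
      have h4 : Tendsto (fun n => hd G6 n (HG (clN w n))) atTop (𝓝 (tval G6 w)) := hom_tendsto hw G6
      have := cd_tendsto G6 h4
      rw [htv] at this
      exact this.eventually_const_lt hc1
    filter_upwards [l1, l2, eventually_gt_atTop 0] with n m1 m2 hn
    refine lt_of_lt_of_le m2 ?_
    unfold cd
    rw [hcard]
    apply div_le_div_of_nonneg_right _ (by positivity)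
    apply mul_le_mul_of_nonneg_right _ (by positivity)
    have hn' : (0:ℝ) < n := by exact_mod_cast hn
    have m3 : (HG (clN w n)).edgeSet.ncard ≤ ⌊β * (n:ℝ) ^ 2 / 2⌋₊ := by
      apply Nat.le_floor
      rw [ed_ncard, div_lt_iff₀ (by positivity)] at m1
      linarith
    exact_mod_cast hE2 n _ m3
  · intro b hb
    filter_upwards [eventually_gt_atTop 0] with n hn
    refine lt_of_le_of_lt ?_ hb
    obtain ⟨H, hH1, hH2⟩ := hE1 n
    have hn' : (0:ℝ) < n := by exact_mod_cast hn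
    have m1 : ed n H ≤ β := by
      rw [ed_ncard, div_le_iff₀ (by positivity)]
      have h4 : (H.edgeSet.ncard : ℝ) ≤ (⌊β * (n:ℝ) ^ 2 / 2⌋₊ : ℝ) := by exact_mod_cast hH1
      have h5 : (⌊β * (n:ℝ) ^ 2 / 2⌋₊ : ℝ) ≤ β * (n:ℝ) ^ 2 / 2 := Nat.floor_le (by positivity)
      linarith
    have m2 := (cd_le_hd G6 n H).trans (hd_le hβ hmax hn H m1)
    unfold cd at m2
    rw [hcard, ← hH2] at m2
    exact m2

end Pool.Agent.R85.G6
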